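import Mathlib

/-!
# A counting inequality on a layer of the cube

`W` is a weight on the `k`-element subsets of a `2k`-element set such that swapping two elements
changes it at most by the factor `E ^ 2`. Then most of the weight is far from any given set `c`.
-/

set_option autoImplicit false

open Finset

namespace Pool.Agent.R551.DP

variable {k : ℕ}

/-- the `k`-element subsets `x` with `|x \ c| = j` -/
def Lay (c : Finset (Fin (2 * k))) (j : ℕ) : Finset (Finset (Fin (2 * k))) :=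
  (powersetCard k univ).filter fun x => (x \ c).card = j

theorem mem_Lay {c x : Finset (Fin (2 * k))} {j : ℕ} :
    x ∈ Lay c j ↔ x.card = k ∧ (x \ c).card = j := by
  simp [Lay]

theorem card_inter {c x : Finset (Fin (2 * k))} {j : ℕ} (hx : x ∈ Lay c j) :
    (x ∩ c).card + j = k := by
  rw [mem_Lay] at hx
  have h := card_sdiff_add_card_inter x c
  omega

theorem card_compl_union {c x : Finset (Fin (2 * k))} {j : ℕ} (hc : c.card = k)
    (hx : x ∈ Lay c j) : ((x ∪ c)ᶜ).card + j = k := by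
  rw [mem_Lay] at hx
  have h1 := card_compl (x ∪ c)
  rw [Fintype.card_fin] at h1
  have h2 := card_sdiff_add_card x c
  have h3 : (x ∪ c).card ≤ 2 * k := by
    have := card_le_univ (x ∪ c)
    rwa [Fintype.card_fin] at this
  omega

theorem card_sdiff' {c x : Finset (Fin (2 * k))} {j : ℕ} (hc : c.card = k)
    (hx : x ∈ Lay c j) : (c \ x).card = j := by
  have h1 := card_inter hx
  have h2 := card_sdiff_add_card_inter c x
  rw [inter_comm] at h2
  omega

theorem double_count (c : Finset (Fin (2 * k))) (W : Finset (Fin (2 * k)) → ℝ)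
    (j : ℕ) :
    ∑ x ∈ Lay c j, ∑ p ∈ (x ∩ c) ×ˢ (x ∪ c)ᶜ, W (insert p.2 (x.erase p.1)) =
      ∑ z ∈ Lay c (j + 1), ∑ _p ∈ (c \ z) ×ˢ (z \ c), W z := by
  rw [sum_sigma', sum_sigma']
  refine sum_bij' (fun t _ => ⟨insert t.2.2 (t.1.erase t.2.1), t.2⟩)
    (fun t _ => ⟨insert t.2.1 (t.1.erase t.2.2), t.2⟩) ?_ ?_ ?_ ?_ ?_
  · rintro ⟨x, i, i'⟩ h
    simp only [mem_sigma, mem_Lay, mem_product, mem_inter, mem_compl, mem_union, not_or,
      mem_sdiff, mem_insert, mem_erase] at h ⊢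
    obtain ⟨⟨h1, h2⟩, ⟨h3, h4⟩, h5, h6⟩ := h
    have hne : i ≠ i' := fun h => h5 (h ▸ h3)
    refine ⟨⟨?_, ?_⟩, ⟨h4, hne, fun h => h.1 rfl⟩, Or.inl trivial, h6⟩
    · rw [card_insert_of_notMem (by simp [h5]), card_erase_of_mem h3]
      have : 0 < x.card := card_pos.2 ⟨i, h3⟩
      omega
    · have e : insert i' (x.erase i) \ c = insert i' (x \ c) := by
        ext a
        simp only [mem_sdiff, mem_insert, mem_erase]
        constructor
        · rintro ⟨rfl | ⟨_, h8⟩, h9⟩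
          · exact Or.inl rfl
          · exact Or.inr ⟨h8, h9⟩
        · rintro (rfl | ⟨h8, h9⟩)
          · exact ⟨Or.inl rfl, h6⟩
          · exact ⟨Or.inr ⟨fun h => h9 (h ▸ h4), h8⟩, h9⟩
      rw [e, card_insert_of_notMem (by simp [h5]), h2]
  · rintro ⟨z, i, i'⟩ h
    simp only [mem_sigma, mem_Lay, mem_product, mem_inter, mem_compl, mem_union, not_or,
      mem_sdiff, mem_insert, mem_erase] at h ⊢
    obtain ⟨⟨h1, h2⟩, ⟨h3, h4⟩, h5, h6⟩ := h
    have hne : i ≠ i' := fun h => h4 (h ▸ h5)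
    refine ⟨⟨?_, ?_⟩, ⟨Or.inl trivial, h3⟩, ⟨fun h => hne h.symm, fun h => h.1 rfl⟩, h6⟩
    · rw [card_insert_of_notMem (by simp [h4]), card_erase_of_mem h5]
      have : 0 < z.card := card_pos.2 ⟨i', h5⟩
      omega
    · have e : insert i (z.erase i') \ c = (z \ c).erase i' := by
        ext a
        simp only [mem_sdiff, mem_insert, mem_erase]
        constructor
        · rintro ⟨rfl | ⟨h7, h8⟩, h9⟩
          · exact absurd h3 h9
          · exact ⟨h7, h8, h9⟩
        · rintro ⟨h7, h8, h9⟩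
          exact ⟨Or.inr ⟨h7, h8⟩, h9⟩
      rw [e, card_erase_of_mem (by simp [h5, h6]), h2]
      rfl
  · rintro ⟨x, i, i'⟩ h
    simp only [mem_sigma, mem_Lay, mem_product, mem_inter, mem_compl, mem_union, not_or] at h
    obtain ⟨_, ⟨h3, h4⟩, h5, h6⟩ := h
    have e : insert i ((insert i' (x.erase i)).erase i') = x := by
      rw [erase_insert (by simp [h5]), insert_erase h3]
    simp only [e]
  · rintro ⟨z, i, i'⟩ h
    simp only [mem_sigma, mem_Lay, mem_product, mem_sdiff] at h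
    obtain ⟨_, ⟨h3, h4⟩, h5, h6⟩ := h
    have e : insert i' ((insert i (z.erase i')).erase i) = z := by
      rw [erase_insert (by simp [h4]), insert_erase h5]
    simp only [e]
  · rintro ⟨x, i, i'⟩ _
    rfl

/-- swapping changes the weight at most by the factor `F` -/
def Smooth (F : ℝ) (W : Finset (Fin (2 * k)) → ℝ) : Prop :=
  ∀ x : Finset (Fin (2 * k)), x.card = k → ∀ i ∈ x, ∀ i', i' ∉ x →
    W x ≤ F * W (insert i' (x.erase i))

theorem layer_step {F : ℝ} {W : Finset (Fin (2 * k)) → ℝ} (hW : Smooth F W)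
    {c : Finset (Fin (2 * k))} (hc : c.card = k) {j : ℕ} (hj : j ≤ k) :
    ((k - j : ℕ) : ℝ) ^ 2 * ∑ x ∈ Lay c j, W x ≤
      F * (((j + 1 : ℕ) : ℝ) ^ 2 * ∑ z ∈ Lay c (j + 1), W z) := by
  have h1 : ((k - j : ℕ) : ℝ) ^ 2 * ∑ x ∈ Lay c j, W x =
      ∑ x ∈ Lay c j, ∑ _p ∈ (x ∩ c) ×ˢ (x ∪ c)ᶜ, W x := by
    rw [mul_sum]
    refine sum_congr rfl fun x hx => ?_
    rw [sum_const, card_product]
    have e1 : (x ∩ c).card = k - j := by
      have := card_inter hx
      omega
    have e2 : ((x ∪ c)ᶜ).card = k - j := by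
      have := card_compl_union hc hx
      omega
    rw [e1, e2, nsmul_eq_mul]
    push_cast
    ring
  have h2 : ((j + 1 : ℕ) : ℝ) ^ 2 * ∑ z ∈ Lay c (j + 1), W z =
      ∑ z ∈ Lay c (j + 1), ∑ _p ∈ (c \ z) ×ˢ (z \ c), W z := by
    rw [mul_sum]
    refine sum_congr rfl fun z hz => ?_
    rw [sum_const, card_product, card_sdiff' hc hz, (mem_Lay.1 hz).2, nsmul_eq_mul]
    push_cast
    ring
  rw [h1, h2, ← double_count, mul_sum]
  refine sum_le_sum fun x hx => ?_
  rw [mul_sum]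
  refine sum_le_sum fun p hp => ?_
  simp only [mem_product, mem_inter, mem_compl, mem_union, not_or] at hp
  exact hW x (mem_Lay.1 hx).1 _ hp.1.1 _ hp.2.1

/-- most of the weight is at distance at least `T` -/
theorem far {F : ℝ} {W : Finset (Fin (2 * k)) → ℝ} (hW0 : ∀ x, 0 ≤ W x)
    (hW : Smooth F W) {c : Finset (Fin (2 * k))} (hc : c.card = k) {T : ℕ} (hT : T ≤ k)
    (hTF : ∀ j < T, 2 * (F * ((j + 1 : ℕ) : ℝ) ^ 2) ≤ ((k - j : ℕ) : ℝ) ^ 2) :
    (T : ℝ) * ∑ x ∈ powersetCard k univ, W x ≤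
      2 * ∑ x ∈ powersetCard k univ, ((x \ c).card : ℝ) * W x := by
  set w : ℕ → ℝ := fun j => ∑ x ∈ Lay c j, W x with hw
  have hw0 : ∀ j, 0 ≤ w j := fun j => sum_nonneg fun x _ => hW0 x
  have hstep : ∀ j < T, 2 * w j ≤ w (j + 1) := by
    intro j hj
    have h1 := layer_step hW hc (j := j) (by omega)
    have h2 := hTF j hj
    have hpos : (0 : ℝ) < ((k - j : ℕ) : ℝ) ^ 2 := by
      have : 0 < k - j := by omega
      positivity
    have h3 : 2 * (((k - j : ℕ) : ℝ) ^ 2 * w j) ≤ ((k - j : ℕ) : ℝ) ^ 2 * w (j + 1) := by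
      have h4 : 2 * (F * (((j + 1 : ℕ) : ℝ) ^ 2 * w (j + 1))) ≤
          ((k - j : ℕ) : ℝ) ^ 2 * w (j + 1) := by
        have := mul_le_mul_of_nonneg_right h2 (hw0 (j + 1))
        calc 2 * (F * (((j + 1 : ℕ) : ℝ) ^ 2 * w (j + 1)))
            = 2 * (F * ((j + 1 : ℕ) : ℝ) ^ 2) * w (j + 1) := by ring
          _ ≤ _ := this
      have h5 : ((k - j : ℕ) : ℝ) ^ 2 * w j ≤ F * (((j + 1 : ℕ) : ℝ) ^ 2 * w (j + 1)) := h1
      linarith
    have h6 : ((k - j : ℕ) : ℝ) ^ 2 * (2 * w j) ≤ ((k - j : ℕ) : ℝ) ^ 2 * w (j + 1) := by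
      linarith
    exact le_of_mul_le_mul_left h6 hpos
  have hsum : ∀ t ≤ T, ∑ j ∈ range t, w j ≤ w t := by
    intro t
    induction t with
    | zero => intro _; simpa using hw0 0
    | succ t ih =>
      intro ht
      rw [sum_range_succ]
      have h1 := ih (by omega)
      have h2 := hstep t (by omega)
      linarith
  -- sums over the layers
  have hfib : ∀ f : Finset (Fin (2 * k)) → ℝ, ∑ x ∈ powersetCard k univ, f x =
      ∑ j ∈ range (k + 1), ∑ x ∈ Lay c j, f x := by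
    intro f
    rw [← sum_fiberwise_of_maps_to (g := fun x => (x \ c).card) (t := range (k + 1))]
    · rfl
    · intro x hx
      rw [mem_powersetCard] at hx
      have : (x \ c).card ≤ x.card := card_le_card sdiff_subset
      simp only [mem_range]
      omega
  have e1 : ∑ x ∈ powersetCard k univ, W x = ∑ j ∈ range (k + 1), w j := hfib W
  have e2 : ∑ x ∈ powersetCard k univ, ((x \ c).card : ℝ) * W x =
      ∑ j ∈ range (k + 1), (j : ℝ) * w j := by
    rw [hfib]
    refine sum_congr rfl fun j _ => ?_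
    rw [hw, mul_sum]
    refine sum_congr rfl fun x hx => ?_
    rw [(mem_Lay.1 hx).2]
  rw [e1, e2]
  have hsplit : ∀ g : ℕ → ℝ, ∑ j ∈ range (k + 1), g j =
      ∑ j ∈ range T, g j + ∑ j ∈ Ico T (k + 1), g j := by
    intro g
    rw [sum_range_add_sum_Ico _ (by omega)]
  have h1 : ∑ j ∈ range (k + 1), w j ≤ 2 * ∑ j ∈ Ico T (k + 1), w j := by
    rw [hsplit]
    have h2 := hsum T le_rfl
    have h3 : w T ≤ ∑ j ∈ Ico T (k + 1), w j :=
      single_le_sum (f := w) (fun j _ => hw0 j) (by simp; omega)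
    linarith
  have h2 : (T : ℝ) * ∑ j ∈ Ico T (k + 1), w j ≤ ∑ j ∈ range (k + 1), (j : ℝ) * w j := by
    rw [hsplit, mul_sum]
    have h3 : 0 ≤ ∑ j ∈ range T, (j : ℝ) * w j :=
      sum_nonneg fun j _ => mul_nonneg (Nat.cast_nonneg _) (hw0 j)
    have h4 : ∑ j ∈ Ico T (k + 1), (T : ℝ) * w j ≤ ∑ j ∈ Ico T (k + 1), (j : ℝ) * w j := by
      refine sum_le_sum fun j hj => ?_
      have : (T : ℝ) ≤ j := by
        exact_mod_cast (mem_Ico.1 hj).1
      exact mul_le_mul_of_nonneg_right this (hw0 j)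
    linarith
  have h3 : (0 : ℝ) ≤ T := Nat.cast_nonneg _
  nlinarith

end Pool.Agent.R551.DP
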