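import Pool.Agent.R551.DP.Core

/-!
# Private anonymized histograms
-/

set_option autoImplicit false

open MeasureTheory Finset
open scoped ENNReal

namespace Pool.Agent.R551.DP

/-- The `ℓ₁`-distance of two real sequences. -/
noncomputable def l1 (a b : ℕ → ℝ) : ℝ≥0∞ := ∑' i, ENNReal.ofReal |a i - b i|

/-- A finitely supported sequence of natural numbers as a real sequence. -/
def toSeq (p : ℕ →₀ ℕ) : ℕ → ℝ := fun i => (p i : ℝ)

/-- The size of a finitely supported sequence of natural numbers: the sum of its terms. -/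
def size (p : ℕ →₀ ℕ) : ℕ := p.sum fun _ a => a

/-- `A` gives an `ε`-differentially private algorithm with inputs in `I_{≤ n}`: for every
integer partition `p` (a nonincreasing sequence of natural numbers with finite support) of size
at most `n`, `A p` is the distribution of the output, a probability measure on real sequences, and
for neighbours `p, p'`, that is `‖p - p'‖₁ ≤ 1`, and every measurable set `S` of outputs,
`A p S ≤ e^ε A p' S`. -/
structure IsDP (n : ℕ) (ε : ℝ) (A : (ℕ →₀ ℕ) → Measure (ℕ → ℝ)) : Prop where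
  prob : ∀ p : ℕ →₀ ℕ, Antitone p → size p ≤ n → IsProbabilityMeasure (A p)
  dp : ∀ p p' : ℕ →₀ ℕ, Antitone p → size p ≤ n → Antitone p' → size p' ≤ n →
    l1 (toSeq p) (toSeq p') ≤ 1 → ∀ S : Set (ℕ → ℝ), MeasurableSet S →
      A p S ≤ ENNReal.ofReal (Real.exp ε) * A p' S

/-- The expected `ℓ₁`-error on the input `p`. -/
noncomputable def error (A : (ℕ →₀ ℕ) → Measure (ℕ → ℝ)) (p : ℕ →₀ ℕ) : ℝ≥0∞ :=
  ∫⁻ y, l1 y (toSeq p) ∂(A p)

/-! ### Elementary facts -/

theorem l1_triangle (a b c : ℕ → ℝ) : l1 a b ≤ l1 a c + l1 c b := by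
  unfold l1
  rw [← ENNReal.tsum_add]
  refine ENNReal.tsum_le_tsum fun i => ?_
  rw [← ENNReal.ofReal_add (abs_nonneg _) (abs_nonneg _)]
  exact ENNReal.ofReal_le_ofReal (abs_sub_le _ _ _)

theorem l1_comm (a b : ℕ → ℝ) : l1 a b = l1 b a := by
  unfold l1
  simp only [abs_sub_comm]

theorem measurable_l1 (b : ℕ → ℝ) : Measurable fun y => l1 y b := by
  unfold l1
  refine Measurable.tsum fun i => ?_
  exact ((measurable_pi_apply i).sub_const _).abs.ennreal_ofReal

/-- a measurable partition into the sets where a given function of a finite family is the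
smallest -/
theorem exists_partition {Ω ι : Type} [MeasurableSpace Ω] [DecidableEq ι] (X : Finset ι)
    (hX : X.Nonempty) (D : ι → Ω → ℝ≥0∞) (hD : ∀ i, Measurable (D i)) :
    ∃ E : ι → Set Ω, (∀ i, MeasurableSet (E i)) ∧ Set.PairwiseDisjoint (X : Set ι) E ∧
      (⋃ i ∈ X, E i) = Set.univ ∧ ∀ i ∈ X, ∀ y ∈ E i, ∀ j ∈ X, D i y ≤ D j y := by
  induction hX using Finset.Nonempty.cons_induction with
  | singleton a =>
    refine ⟨fun _ => Set.univ, fun _ => MeasurableSet.univ, by simp, by simp, ?_⟩
    intro i hi y _ j hj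
    rw [mem_singleton.1 hi, mem_singleton.1 hj]
  | cons a X ha hX ih =>
    obtain ⟨E, h1, h2, h3, h4⟩ := ih
    set F : Set Ω := ⋂ j ∈ X, {y | D a y ≤ D j y} with hF
    have hFm : MeasurableSet F :=
      Finset.measurableSet_biInter X fun j _ => measurableSet_le (hD a) (hD j)
    have hFmem : ∀ y, y ∈ F ↔ ∀ j ∈ X, D a y ≤ D j y := by
      intro y
      simp [hF]
    refine ⟨fun i => if i = a then F else E i \ F, ?_, ?_, ?_, ?_⟩
    · intro i
      by_cases h : i = a
      · simp only [h, if_true]
        exact hFm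
      · simp only [if_neg h]
        exact (h1 i).diff hFm
    · intro i hi j hj hij
      simp only [Function.onFun]
      rw [coe_cons, Set.mem_insert_iff] at hi hj
      by_cases hia : i = a
      · have hja : j ≠ a := fun h => hij (hia.trans h.symm)
        simp only [hia, if_true, if_neg hja]
        exact Set.disjoint_sdiff_right
      · by_cases hja : j = a
        · simp only [hja, if_true, if_neg hia]
          exact Set.disjoint_sdiff_left
        · simp only [if_neg hia, if_neg hja]
          have hd := h2 (hi.resolve_left hia) (hj.resolve_left hja) hij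
          exact hd.mono Set.sdiff_subset Set.sdiff_subset
    · rw [Set.eq_univ_iff_forall]
      intro y
      rw [Set.mem_iUnion₂]
      by_cases hy : y ∈ F
      · exact ⟨a, by simp, by simpa using hy⟩
      · have hyu : y ∈ ⋃ i ∈ X, E i := by
          rw [h3]
          trivial
        obtain ⟨i, hi, hyi⟩ := Set.mem_iUnion₂.1 hyu
        have hia : i ≠ a := fun h => ha (h ▸ hi)
        exact ⟨i, by simp [hi], by simp only [if_neg hia]; exact ⟨hyi, hy⟩⟩
    · intro i hi y hy j hj
      rw [mem_cons] at hi hj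
      by_cases hia : i = a
      · subst hia
        simp only [if_true] at hy
        rcases hj with rfl | hj
        · exact le_rfl
        · exact (hFmem y).1 hy j hj
      · simp only [if_neg hia] at hy
        have hiX := hi.resolve_left hia
        rcases hj with rfl | hj
        · have hn := hy.2
          rw [hFmem] at hn
          push Not at hn
          obtain ⟨l, hl, hlt⟩ := hn
          exact (h4 i hiX y hy.1 l hl).trans hlt.le
        · exact h4 i hiX y hy.1 j hj

/-! ### The hard inputs -/

/-- the values of the hard inputs -/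
def val (k R : ℕ) (x : Finset (Fin (2 * k))) (i : ℕ) : ℕ :=
  if i = 0 then R
  else if h : i - 1 < 2 * k then
    2 * (2 * k - 1 - (i - 1)) + (if (⟨i - 1, h⟩ : Fin (2 * k)) ∈ x then 1 else 0)
  else 0

/-- the hard inputs -/
noncomputable def hard (k R : ℕ) (x : Finset (Fin (2 * k))) : ℕ →₀ ℕ :=
  Finsupp.onFinset (range (2 * k + 1)) (val k R x) (by
    intro i hi
    rw [mem_range]
    by_contra hlt
    apply hi
    unfold val
    rw [if_neg (by omega), dif_neg (by omega)])

theorem hard_apply (k R : ℕ) (x : Finset (Fin (2 * k))) (i : ℕ) :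
    hard k R x i = val k R x i := rfl

theorem val_succ (k R : ℕ) (x : Finset (Fin (2 * k))) (i : Fin (2 * k)) :
    val k R x (i.1 + 1) = 2 * (2 * k - 1 - i.1) + (if i ∈ x then 1 else 0) := by
  unfold val
  rw [if_neg (by omega), dif_pos (by simp)]
  simp

theorem hard_antitone {k R : ℕ} (hR : 4 * k ≤ R) (x : Finset (Fin (2 * k))) :
    Antitone (hard k R x) := by
  refine antitone_nat_of_succ_le fun i => ?_
  rw [hard_apply, hard_apply]
  unfold val
  rw [if_neg (by omega)]
  by_cases hi : i = 0
  · subst hi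
    simp only [if_true]
    split_ifs <;> omega
  · rw [if_neg hi]
    by_cases h1 : i + 1 - 1 < 2 * k
    · rw [dif_pos h1, dif_pos (by omega)]
      split_ifs <;> omega
    · rw [dif_neg h1]
      exact Nat.zero_le _

/-- the common part of the sizes -/
def base (k : ℕ) : ℕ := ∑ i : Fin (2 * k), 2 * (2 * k - 1 - i.1)

theorem base_le (k : ℕ) : base k ≤ 8 * k ^ 2 := by
  calc base k ≤ ∑ _i : Fin (2 * k), 4 * k := sum_le_sum fun i _ => by omega
    _ = 8 * k ^ 2 := by
      rw [sum_const, card_univ, Fintype.card_fin, smul_eq_mul]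
      ring

theorem size_hard (k R : ℕ) (x : Finset (Fin (2 * k))) :
    size (hard k R x) = R + base k + x.card := by
  unfold size hard
  rw [Finsupp.onFinset_sum _ (fun _ => rfl), sum_range_succ', sum_range]
  have h1 : ∀ i : Fin (2 * k), val k R x (i.1 + 1)
      = 2 * (2 * k - 1 - i.1) + (if i ∈ x then 1 else 0) := val_succ k R x
  simp only [h1]
  rw [sum_add_distrib, sum_boole]
  have h2 : (univ.filter fun i => i ∈ x) = x := by
    ext
    simp
  rw [h2]
  have h3 : val k R x 0 = R := by simp [val]
  rw [h3]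
  unfold base
  push_cast
  ring

theorem l1_hard (k R : ℕ) (x y : Finset (Fin (2 * k))) :
    l1 (toSeq (hard k R x)) (toSeq (hard k R y)) = (((x \ y).card + (y \ x).card : ℕ) : ℝ≥0∞) := by
  unfold l1 toSeq
  rw [tsum_eq_sum (s := range (2 * k + 1)), sum_range_succ', sum_range]
  · have h0 : ENNReal.ofReal |((hard k R x 0 : ℕ) : ℝ) - ((hard k R y 0 : ℕ) : ℝ)| = 0 := by
      simp [hard_apply, val]
    rw [h0, add_zero]
    have h1 : ∀ i : Fin (2 * k),
        ENNReal.ofReal |((hard k R x (i.1 + 1) : ℕ) : ℝ) - ((hard k R y (i.1 + 1) : ℕ) : ℝ)|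
          = (((if i ∈ x \ y then 1 else 0) + (if i ∈ y \ x then 1 else 0) : ℕ) : ℝ≥0∞) := by
      intro i
      rw [hard_apply, hard_apply, val_succ, val_succ]
      by_cases h1 : i ∈ x <;> by_cases h2 : i ∈ y <;> simp [h1, h2]
    simp only [h1]
    rw [← Nat.cast_sum, sum_add_distrib, sum_boole, sum_boole]
    have h2 : (univ.filter fun i => i ∈ x \ y) = x \ y := by
      ext
      simp
    have h3 : (univ.filter fun i => i ∈ y \ x) = y \ x := by
      ext
      simp
    rw [h2, h3]
    push_cast
    ring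
  · intro i hi
    rw [mem_range] at hi
    have h1 : ∀ x : Finset (Fin (2 * k)), hard k R x i = 0 := by
      intro x
      rw [hard_apply]
      unfold val
      rw [if_neg (by omega), dif_neg (by omega)]
    rw [h1, h1]
    simp

/-- the main inequality: the average error over the hard inputs is at least `T / 2` -/
theorem exists_large {n k T : ℕ} {ε : ℝ} {A : (ℕ →₀ ℕ) → Measure (ℕ → ℝ)} (hA : IsDP n ε A)
    (hk : 0 < k) (hn : base k + k + 4 * k ≤ n) (hT : T ≤ k)
    (hTF : ∀ j < T, 2 * (Real.exp (2 * ε) * ((j + 1 : ℕ) : ℝ) ^ 2) ≤ ((k - j : ℕ) : ℝ) ^ 2) :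
    ∃ p : ℕ →₀ ℕ, Antitone p ∧ size p = n ∧ ENNReal.ofReal ((T : ℝ) / 2) ≤ error A p := by
  classical
  set R := n - base k - k with hR
  have hR4 : 4 * k ≤ R := by omega
  set P : Finset (Fin (2 * k)) → ℕ →₀ ℕ := hard k R with hP
  have hPa : ∀ x, Antitone (P x) := hard_antitone hR4
  have hPs : ∀ x, size (P x) = R + base k + x.card := size_hard k R
  set X : Finset (Finset (Fin (2 * k))) := powersetCard k univ with hX
  have hXmem : ∀ x, x ∈ X ↔ x.card = k := by
    intro x
    simp [hX]
  have hXne : X.Nonempty := by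
    rw [hX, powersetCard_nonempty, card_univ, Fintype.card_fin]
    omega
  by_contra hcon
  push Not at hcon
  have herr : ∀ x ∈ X, error A (P x) < ENNReal.ofReal ((T : ℝ) / 2) := by
    intro x hx
    refine hcon (P x) (hPa x) ?_
    rw [hPs, (hXmem x).1 hx]
    omega
  have hprob : ∀ x : Finset (Fin (2 * k)), x.card ≤ k → IsProbabilityMeasure (A (P x)) := by
    intro x hx
    refine hA.prob _ (hPa x) ?_
    rw [hPs]
    omega
  obtain ⟨E, hE1, hE2, hE3, hE4⟩ := exists_partition X hXne
    (fun x y => l1 y (toSeq (P x))) (fun x => measurable_l1 _)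
  set W : Finset (Fin (2 * k)) → Finset (Fin (2 * k)) → ℝ :=
    fun c x => (A (P x) (E c)).toReal with hW
  have hsmooth : ∀ c, Smooth (Real.exp (2 * ε)) (W c) := by
    intro c x hx i hi i' hi'
    have hxe : (x.erase i).card + 1 = k := by
      rw [card_erase_of_mem hi, hx]
      omega
    have hz : (insert i' (x.erase i)).card = k := by
      rw [card_insert_of_notMem (by simp [hi']), hxe]
    have d1 : l1 (toSeq (P x)) (toSeq (P (x.erase i))) ≤ 1 := by
      rw [hP, l1_hard]
      have e1 : x \ x.erase i = {i} := by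
        ext a
        simp only [mem_sdiff, mem_erase, mem_singleton, not_and]
        constructor
        · rintro ⟨h1, h2⟩
          by_contra h3
          exact h2 h3 h1
        · rintro rfl
          exact ⟨hi, fun h => absurd rfl h⟩
      have e2 : x.erase i \ x = ∅ := by
        rw [sdiff_eq_empty_iff_subset]
        exact erase_subset _ _
      rw [e1, e2]
      simp
    have d2 : l1 (toSeq (P (x.erase i))) (toSeq (P (insert i' (x.erase i)))) ≤ 1 := by
      rw [hP, l1_hard]
      have e1 : x.erase i \ insert i' (x.erase i) = ∅ := by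
        rw [sdiff_eq_empty_iff_subset]
        exact subset_insert _ _
      have e2 : insert i' (x.erase i) \ x.erase i = {i'} := by
        ext a
        simp only [mem_sdiff, mem_insert, mem_erase, mem_singleton, not_and]
        constructor
        · rintro ⟨h1 | h1, h2⟩
          · exact h1
          · exact absurd h1.2 (h2 h1.1)
        · rintro rfl
          exact ⟨Or.inl rfl, fun _ h => hi' h⟩
      rw [e1, e2]
      simp
    have s1 : size (P x) ≤ n := by
      rw [hPs]
      omega
    have s2 : size (P (x.erase i)) ≤ n := by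
      rw [hPs]
      omega
    have s3 : size (P (insert i' (x.erase i))) ≤ n := by
      rw [hPs]
      omega
    have i1 := hA.dp _ _ (hPa x) s1 (hPa (x.erase i)) s2 d1 _ (hE1 c)
    have i2 := hA.dp _ _ (hPa (x.erase i)) s2 (hPa (insert i' (x.erase i))) s3 d2 _ (hE1 c)
    have i3 : A (P x) (E c) ≤
        ENNReal.ofReal (Real.exp (2 * ε)) * A (P (insert i' (x.erase i))) (E c) := by
      calc A (P x) (E c) ≤ ENNReal.ofReal (Real.exp ε) * A (P (x.erase i)) (E c) := i1
        _ ≤ ENNReal.ofReal (Real.exp ε) * (ENNReal.ofReal (Real.exp ε) *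
            A (P (insert i' (x.erase i))) (E c)) := by gcongr
        _ = ENNReal.ofReal (Real.exp (2 * ε)) * A (P (insert i' (x.erase i))) (E c) := by
            rw [← mul_assoc, ← ENNReal.ofReal_mul (Real.exp_nonneg _), ← Real.exp_add]
            congr 3
            ring
    have hpz := hprob _ hz.le
    have hne : ENNReal.ofReal (Real.exp (2 * ε)) * A (P (insert i' (x.erase i))) (E c) ≠ ⊤ :=
      ENNReal.mul_ne_top ENNReal.ofReal_ne_top (measure_ne_top _ _)
    have i4 := ENNReal.toReal_mono hne i3
    rwa [ENNReal.toReal_mul, ENNReal.toReal_ofReal (Real.exp_nonneg _)] at i4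
  -- the inequality for every set of the partition
  have hfar : ∀ c ∈ X, (T : ℝ) * ∑ x ∈ X, W c x ≤ 2 * ∑ x ∈ X, ((x \ c).card : ℝ) * W c x :=
    fun c hc => far (fun x => ENNReal.toReal_nonneg) (hsmooth c) ((hXmem c).1 hc) hT hTF
  have htot : ∀ x ∈ X, ∑ c ∈ X, W c x = 1 := by
    intro x hx
    have := hprob x ((hXmem x).1 hx).le
    rw [hW, ← ENNReal.toReal_sum fun c _ => measure_ne_top _ _,
      ← measure_biUnion_finset hE2 fun c _ => hE1 c, hE3, measure_univ]
    rfl
  have herr2 : ∀ x ∈ X, ∑ c ∈ X, ((x \ c).card : ℝ) * W c x < (T : ℝ) / 2 := by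
    intro x hx
    have := hprob x ((hXmem x).1 hx).le
    have h1 : ∑ c ∈ X, ((x \ c).card : ℝ≥0∞) * A (P x) (E c) ≤ error A (P x) := by
      have h2 : error A (P x) = ∑ c ∈ X, ∫⁻ y in E c, l1 y (toSeq (P x)) ∂(A (P x)) := by
        rw [← lintegral_biUnion_finset hE2 (fun c _ => hE1 c), hE3, Measure.restrict_univ]
        rfl
      rw [h2]
      refine sum_le_sum fun c hc => ?_
      rw [← setLIntegral_const]
      refine setLIntegral_mono (measurable_l1 _) fun y hy => ?_
      have h3 : l1 y (toSeq (P c)) ≤ l1 y (toSeq (P x)) := hE4 c hc y hy x hx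
      have h4 := l1_triangle (toSeq (P c)) (toSeq (P x)) y
      rw [l1_comm (toSeq (P c)) y] at h4
      have h5 : l1 (toSeq (P c)) (toSeq (P x)) = 2 * ((x \ c).card : ℝ≥0∞) := by
        rw [hP, l1_hard]
        have h6 : (c \ x).card = (x \ c).card := by
          have h7 := card_sdiff_add_card_inter c x
          have h8 := card_sdiff_add_card_inter x c
          rw [inter_comm] at h8
          have h9 := (hXmem c).1 hc
          have h10 := (hXmem x).1 hx
          omega
        rw [h6]
        push_cast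
        ring
      rw [h5] at h4
      have h6 : 2 * ((x \ c).card : ℝ≥0∞) ≤ 2 * l1 y (toSeq (P x)) := by
        refine h4.trans ?_
        rw [two_mul]
        gcongr
      exact (ENNReal.mul_le_mul_iff_right (by norm_num) (by norm_num)).1 h6
    have h2 : ∑ c ∈ X, ((x \ c).card : ℝ≥0∞) * A (P x) (E c) <
        ENNReal.ofReal ((T : ℝ) / 2) := h1.trans_lt (herr x hx)
    have h3 : (∑ c ∈ X, ((x \ c).card : ℝ≥0∞) * A (P x) (E c)).toReal < (T : ℝ) / 2 := by
      have h4 := ENNReal.toReal_lt_of_lt_ofReal h2
      exact h4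
    rw [ENNReal.toReal_sum fun c _ => ENNReal.mul_ne_top (ENNReal.natCast_ne_top _)
      (measure_ne_top _ _)] at h3
    simpa [ENNReal.toReal_mul, hW] using h3
  -- add up
  have h1 : ∑ c ∈ X, (T : ℝ) * ∑ x ∈ X, W c x ≤
      ∑ c ∈ X, 2 * ∑ x ∈ X, ((x \ c).card : ℝ) * W c x := sum_le_sum hfar
  rw [← mul_sum, ← mul_sum, sum_comm, sum_comm (f := fun c x => ((x \ c).card : ℝ) * W c x),
    sum_congr rfl htot, sum_const] at h1
  have h2 : ∑ x ∈ X, ∑ c ∈ X, ((x \ c).card : ℝ) * W c x < ∑ _x ∈ X, (T : ℝ) / 2 :=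
    sum_lt_sum_of_nonempty hXne herr2
  rw [sum_const] at h2
  simp only [nsmul_eq_mul, mul_one] at h1 h2
  linarith

end Pool.Agent.R551.DP
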